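import Pool.Agent.Helper10.GO.GoalsC

/-!
# Project GO (MP_6af536_nt), packet FEK: the growth function of the volumes (real analysis).
-/

set_option autoImplicit false

open Filter Topology

noncomputable section

namespace Pool.Agent.Helper12.GO

open Pool.Agent.Helper10.GO

/-- the maximum of finitely many affine functions of different slopes is affine outside few points -/
theorem gap_aff {ι : Type} (g s : ι → ℝ) (S : Finset ι) (hs : Set.InjOn s S) (hne : S.Nonempty) :
    ∃ Λ : Finset ℝ, Λ.card + 1 ≤ S.card ∧ ∀ G : ℝ → ℝ,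
      (∀ σ, (∀ i ∈ S, g i + s i * σ ≤ G σ) ∧ ∃ i ∈ S, G σ = g i + s i * σ) →
      ∀ σ₁ σ₂, IsGap Λ σ₁ σ₂ → ∃ p q : ℝ, ∀ σ, σ₁ ≤ σ → σ ≤ σ₂ → G σ = p + q * σ := by
  classical
  revert hs hne
  refine Finset.induction_on_max_value s
    (motive := fun S : Finset ι => Set.InjOn s S → S.Nonempty → ∃ Λ : Finset ℝ, Λ.card + 1 ≤ S.card ∧ ∀ G : ℝ → ℝ,
      (∀ σ, (∀ i ∈ S, g i + s i * σ ≤ G σ) ∧ ∃ i ∈ S, G σ = g i + s i * σ) →
      ∀ σ₁ σ₂, IsGap Λ σ₁ σ₂ → ∃ p q : ℝ, ∀ σ, σ₁ ≤ σ → σ ≤ σ₂ → G σ = p + q * σ) S ?_ ?_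
  · intro _ h
    exact absurd h (by simp)
  · intro a S ha hmax ih hinj _
    rcases S.eq_empty_or_nonempty with hS | hS
    · subst hS
      refine ⟨∅, by simp, fun G hG σ₁ σ₂ _ => ⟨g a, s a, fun σ _ _ => ?_⟩⟩
      obtain ⟨i, hi, h⟩ := (hG σ).2
      simp at hi
      rw [h, hi]
    · obtain ⟨Λ', hc, hΛ'⟩ := ih (hinj.mono (by simp)) hS
      have hlt : ∀ x ∈ S, s x < s a := by
        intro x hx
        refine lt_of_le_of_ne (hmax x hx) fun h => ?_
        have := hinj (by simp [hx]) (by simp) h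
        exact ha (this ▸ hx)
      let lam : ι → ℝ := fun x => (g x - g a) / (s a - s x)
      refine ⟨insert (S.sup' hS lam) Λ', ?_, ?_⟩
      · rw [Finset.card_insert_of_notMem ha]
        have := Finset.card_insert_le (S.sup' hS lam) Λ'
        omega
      · intro G hG σ₁ σ₂ hgap
        have hL : ∀ x ∈ S, ∀ σ, lam x ≤ σ → g x + s x * σ ≤ g a + s a * σ := by
          intro x hx σ h
          have := hlt x hx
          rw [div_le_iff₀ (by linarith)] at h
          linarith
        have hU : ∀ x ∈ S, ∀ σ, σ ≤ lam x → g a + s a * σ ≤ g x + s x * σ := by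
          intro x hx σ h
          have := hlt x hx
          rw [le_div_iff₀ (by linarith)] at h
          linarith
        have key := hgap.2 (S.sup' hS lam) (by simp)
        rcases key with key | key
        · refine ⟨g a, s a, fun σ h1 _ => ?_⟩
          have h3 : ∀ x ∈ S, lam x ≤ σ := fun x hx =>
            (Finset.le_sup' lam hx).trans (key.trans h1)
          obtain ⟨i, hi, h⟩ := (hG σ).2
          rcases Finset.mem_insert.1 hi with hi | hi
          · rw [h, hi]
          · refine le_antisymm ?_ ((hG σ).1 a (by simp))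
            rw [h]
            exact hL i hi σ (h3 i hi)
        · have hG' := hΛ' (fun σ => S.sup' hS (fun i => g i + s i * σ)) (fun σ =>
            ⟨fun i hi => Finset.le_sup' (fun i => g i + s i * σ) hi,
              (Finset.exists_mem_eq_sup' hS (fun i => g i + s i * σ))⟩) σ₁ σ₂
            ⟨hgap.1, fun l hl => hgap.2 l (Finset.mem_insert_of_mem hl)⟩
          obtain ⟨p, q, hpq⟩ := hG'
          refine ⟨p, q, fun σ h1 h2 => ?_⟩
          rw [← hpq σ h1 h2]
          refine le_antisymm ?_ (Finset.sup'_le _ _ fun i hi => (hG σ).1 i (by simp [hi]))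
          obtain ⟨i, hi, h⟩ := (hG σ).2
          rw [h]
          rcases Finset.mem_insert.1 hi with hi | hi
          · obtain ⟨j, hj, hj'⟩ := Finset.exists_mem_eq_sup' hS lam
            rw [hi]
            refine (hU j hj σ ?_).trans (Finset.le_sup' (fun i => g i + s i * σ) hj)
            rw [← hj']
            exact h2.trans key
          · exact Finset.le_sup' (fun i => g i + s i * σ) hi

theorem vp_scale (d : ℕ) (D : Fin (d + 1) → ℝ) (c a e : ℝ) : vp d D (c * a) (c * e) = c ^ d * vp d D a e := by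
  unfold vp
  rw [Finset.mul_sum]
  refine Finset.sum_congr rfl fun i _ => ?_
  have h : c ^ d = c ^ (d - (i : ℕ)) * c ^ (i : ℕ) := by
    rw [← pow_add]
    congr 1
    have := i.2
    omega
  rw [mul_pow, mul_pow, h]
  ring

theorem vp_term (d : ℕ) (D : Fin (d + 1) → ℝ) (hD : ∀ i, 0 ≤ D i) (a : ℝ) (ha : 0 ≤ a) (i : Fin (d + 1)) :
    D i * a ^ (d - (i : ℕ)) ≤ vp d D a 1 := by
  unfold vp
  have h : D i * a ^ (d - (i : ℕ)) = D i * a ^ (d - (i : ℕ)) * 1 ^ (i : ℕ) := by simp
  rw [h]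
  refine Finset.single_le_sum (f := fun i : Fin (d + 1) => D i * a ^ (d - (i : ℕ)) * (1 : ℝ) ^ (i : ℕ))
    (fun j _ => ?_) (Finset.mem_univ i)
  have := hD j
  positivity

theorem vp_max (d : ℕ) (D : Fin (d + 1) → ℝ) (a : ℝ) :
    ∃ i : Fin (d + 1), vp d D a 1 ≤ ((d : ℝ) + 1) * (D i * a ^ (d - (i : ℕ))) := by
  obtain ⟨i, _, hi⟩ := Finset.exists_max_image (Finset.univ : Finset (Fin (d + 1)))
    (fun i => D i * a ^ (d - (i : ℕ))) ⟨0, by simp⟩
  refine ⟨i, ?_⟩
  unfold vp
  have := Finset.sum_le_card_nsmul (Finset.univ : Finset (Fin (d + 1)))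
    (fun i => D i * a ^ (d - (i : ℕ)) * (1 : ℝ) ^ (i : ℕ)) (D i * a ^ (d - (i : ℕ)))
    (fun j hj => by simpa using hi j hj)
  simpa using this

/-- PACKET FEK -/
theorem fek : S_FEK := by
  intro d D hnn _ hlast hsub
  have hfac : (0 : ℝ) < (d.factorial : ℝ) := by exact_mod_cast d.factorial_pos
  have hpos : ∀ (n : ℕ) (a : ℝ), 0 ≤ a → 1 / (d.factorial : ℝ) ≤ vp d (D n) a 1 := by
    intro n a ha
    refine (hlast n).trans ?_
    have := vp_term d (D n) (hnn n) a ha (Fin.last d)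
    simpa using this
  have hpos' : ∀ (n : ℕ) (a : ℝ), 0 ≤ a → 0 < vp d (D n) a 1 := fun n a ha =>
    lt_of_lt_of_le (by positivity) (hpos n a ha)
  have hsa : ∀ σ : ℝ, Subadditive fun n : ℕ =>
      Real.log ((d.factorial : ℝ) * vp d (D n) (Real.exp (n * σ)) 1) := by
    intro σ m n
    have h1 := hpos' m _ (Real.exp_pos (m * σ)).le
    have h2 := hpos' n _ (Real.exp_pos (n * σ)).le
    have h3 := hpos' (m + n) _ (Real.exp_pos ((m + n : ℕ) * σ)).le
    have h := hsub m n (Real.exp ((m + n : ℕ) * σ)) (Real.exp (n * σ)) 1 (Real.exp_pos _) (Real.exp_pos _) one_pos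
    have h4 : vp d (D m) (Real.exp ((m + n : ℕ) * σ)) (Real.exp (n * σ)) =
        Real.exp (n * σ) ^ d * vp d (D m) (Real.exp (m * σ)) 1 := by
      rw [← vp_scale, ← Real.exp_add, mul_one]
      congr 2
      push_cast
      ring
    rw [h4] at h
    have h5 : vp d (D (m + n)) (Real.exp ((m + n : ℕ) * σ)) 1 ≤
        (d.factorial : ℝ) * vp d (D m) (Real.exp (m * σ)) 1 * vp d (D n) (Real.exp (n * σ)) 1 := by
      have h6 : (0 : ℝ) < Real.exp (n * σ) ^ d := by positivity
      refine le_of_mul_le_mul_right ?_ h6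
      linarith
    show Real.log _ ≤ Real.log _ + Real.log _
    rw [← Real.log_mul (by positivity) (by positivity)]
    refine Real.log_le_log (by positivity) ?_
    nlinarith
  have hbdd : ∀ σ : ℝ, BddBelow (Set.range fun n : ℕ =>
      Real.log ((d.factorial : ℝ) * vp d (D n) (Real.exp (n * σ)) 1) / n) := by
    intro σ
    refine ⟨0, ?_⟩
    rintro _ ⟨n, rfl⟩
    refine div_nonneg (Real.log_nonneg ?_) (Nat.cast_nonneg n)
    have := hpos n _ (Real.exp_pos (n * σ)).le
    rw [div_le_iff₀ hfac] at this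
    linarith
  let G : ℝ → ℝ := fun σ => (hsa σ).lim
  have hG : ∀ σ : ℝ, Tendsto (fun n : ℕ => Real.log (vp d (D n) (Real.exp (n * σ)) 1) / n) atTop (𝓝 (G σ)) := by
    intro σ
    have h1 := (hsa σ).tendsto_lim (hbdd σ)
    have h2 : Tendsto (fun n : ℕ => Real.log (d.factorial : ℝ) / (n : ℝ)) atTop (𝓝 0) :=
      tendsto_const_div_atTop_nhds_zero_nat _
    have h3 := h1.sub h2
    rw [sub_zero] at h3
    refine h3.congr fun n => ?_
    have := hpos' n _ (Real.exp_pos (n * σ)).le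
    rw [Real.log_mul hfac.ne' this.ne', ← sub_div]
    congr 1
    ring
  -- the roots
  let v : ℕ → ℝ → ℝ := fun n σ => (vp d (D n) (Real.exp (n * σ)) 1) ^ ((1 : ℝ) / n)
  have hv : ∀ σ, Tendsto (fun n => v n σ) atTop (𝓝 (Real.exp (G σ))) := by
    intro σ
    refine ((Real.continuous_exp.tendsto _).comp (hG σ)).congr fun n => ?_
    have := hpos' n _ (Real.exp_pos (n * σ)).le
    show Real.exp _ = _ ^ _
    rw [Real.rpow_def_of_pos this]
    congr 1
    ring
  let u : ℕ → Fin (d + 1) → ℝ := fun n i => (D n i) ^ ((1 : ℝ) / n)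
  have hunn : ∀ n i, 0 ≤ u n i := fun n i => Real.rpow_nonneg (hnn n i) _
  have hexp : ∀ (n : ℕ), 1 ≤ n → ∀ (k : ℕ) (σ : ℝ),
      (Real.exp (n * σ) ^ k) ^ ((1 : ℝ) / n) = Real.exp (k * σ) := by
    intro n hn k σ
    have hn' : (n : ℝ) ≠ 0 := by positivity
    rw [← Real.exp_nat_mul, ← Real.exp_mul]
    congr 1
    field_simp
  have hle : ∀ n, 1 ≤ n → ∀ i σ, u n i * Real.exp ((d - (i : ℕ) : ℕ) * σ) ≤ v n σ := by
    intro n hn i σ
    show (D n i) ^ ((1 : ℝ) / n) * _ ≤ _
    rw [← hexp n hn, ← Real.mul_rpow (hnn n i) (by positivity)]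
    refine Real.rpow_le_rpow (mul_nonneg (hnn n i) (by positivity)) ?_ (by positivity)
    exact vp_term d (D n) (hnn n) _ (Real.exp_pos _).le i
  have hge : ∀ n, 1 ≤ n → ∀ σ, ∃ i, v n σ ≤ ((d : ℝ) + 1) ^ ((1 : ℝ) / n) *
      (u n i * Real.exp ((d - (i : ℕ) : ℕ) * σ)) := by
    intro n hn σ
    obtain ⟨i, hi⟩ := vp_max d (D n) (Real.exp (n * σ))
    refine ⟨i, ?_⟩
    show _ ≤ _ * ((D n i) ^ ((1 : ℝ) / n) * _)
    rw [← hexp n hn, ← Real.mul_rpow (hnn n i) (by positivity),
      ← Real.mul_rpow (by positivity) (mul_nonneg (hnn n i) (by positivity))]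
    exact Real.rpow_le_rpow (hpos' n _ (Real.exp_pos _).le).le hi (by positivity)
  -- a convergent subsequence
  obtain ⟨C, hC⟩ := (hv 0).bddAbove_range
  have hub : ∀ n i, u n i ≤ max C 1 := by
    intro n i
    rcases Nat.eq_zero_or_pos n with h | h
    · subst h
      simp [u]
    · have h1 := hle n h i 0
      simp only [mul_zero, Real.exp_zero, mul_one] at h1
      exact (h1.trans (hC ⟨n, rfl⟩)).trans (le_max_left _ _)
  obtain ⟨a, _, φ, hφ, ha⟩ := tendsto_subseq_of_bounded (s := Metric.closedBall (0 : Fin (d + 1) → ℝ) (max C 1))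
    Metric.isBounded_closedBall (x := u) (fun n => by
      rw [mem_closedBall_zero_iff, pi_norm_le_iff_of_nonneg (le_max_of_le_right zero_le_one)]
      intro i
      rw [Real.norm_of_nonneg (hunn n i)]
      exact hub n i)
  have hai : ∀ i, Tendsto (fun n => u (φ n) i) atTop (𝓝 (a i)) := fun i => (tendsto_pi_nhds.1 ha) i
  have hφ1 : ∀ᶠ n in atTop, 1 ≤ φ n := hφ.tendsto_atTop.eventually (eventually_ge_atTop 1)
  have ha0 : ∀ i, 0 ≤ a i := fun i => ge_of_tendsto' (hai i) fun n => hunn _ _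
  have hmax1 : ∀ σ i, a i * Real.exp ((d - (i : ℕ) : ℕ) * σ) ≤ Real.exp (G σ) := by
    intro σ i
    refine le_of_tendsto_of_tendsto ((hai i).mul_const _) ((hv σ).comp hφ.tendsto_atTop) ?_
    filter_upwards [hφ1] with n hn
    exact hle _ hn i σ
  have hmax2 : ∀ σ, ∃ i, Real.exp (G σ) ≤ a i * Real.exp ((d - (i : ℕ) : ℕ) * σ) := by
    intro σ
    by_contra hcon
    push Not at hcon
    have h1 : Tendsto (fun n : ℕ => ((d : ℝ) + 1) ^ ((1 : ℝ) / n)) atTop (𝓝 1) := by
      have h2 : Tendsto (fun n : ℕ => (1 : ℝ) / (n : ℝ)) atTop (𝓝 0) := tendsto_const_div_atTop_nhds_zero_nat _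
      have h3 := (Real.continuous_const_rpow (a := (d : ℝ) + 1) (by positivity)).tendsto 0
      rw [Real.rpow_zero] at h3
      exact h3.comp h2
    have h4 : ∀ i, ∀ᶠ n in atTop, ((d : ℝ) + 1) ^ ((1 : ℝ) / (φ n : ℕ)) *
        (u (φ n) i * Real.exp ((d - (i : ℕ) : ℕ) * σ)) < v (φ n) σ := by
      intro i
      have h5 := (h1.comp hφ.tendsto_atTop).mul ((hai i).mul_const (Real.exp ((d - (i : ℕ) : ℕ) * σ)))
      rw [one_mul] at h5
      exact h5.eventually_lt ((hv σ).comp hφ.tendsto_atTop) (hcon i)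
    obtain ⟨n, hn, hn1⟩ := ((eventually_all.2 h4).and hφ1).exists
    obtain ⟨i, hi⟩ := hge _ hn1 σ
    exact absurd (hn i) (not_lt.2 hi)
  -- the maximum of affine functions
  classical
  obtain ⟨Λ, hΛc, hΛ⟩ := gap_aff (fun i : Fin (d + 1) => Real.log (a i)) (fun i => ((d - (i : ℕ) : ℕ) : ℝ))
    (Finset.univ.filter fun i => 0 < a i) (by
      intro i _ j _ hij
      have : d - (i : ℕ) = d - (j : ℕ) := by
        have h : ((d - (i : ℕ) : ℕ) : ℝ) = ((d - (j : ℕ) : ℕ) : ℝ) := hij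
        exact_mod_cast h
      have := i.2
      have := j.2
      ext
      omega) (by
      obtain ⟨i, hi⟩ := hmax2 0
      refine ⟨i, by
        simp only [Finset.mem_filter, Finset.mem_univ, true_and]
        have h1 := Real.exp_pos (G 0)
        have h2 := Real.exp_pos (((d - (i : ℕ) : ℕ) : ℝ) * 0)
        exact pos_of_mul_pos_left (lt_of_lt_of_le h1 hi) h2.le⟩)
  refine ⟨Λ, G, ?_, hG, ?_⟩
  · have := Finset.card_filter_le (Finset.univ : Finset (Fin (d + 1))) (fun i => 0 < a i)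
    simp only [Finset.card_univ, Fintype.card_fin] at this
    omega
  · intro σ₁ σ₂ hgap
    obtain ⟨p, q, hpq⟩ := hΛ G (fun σ => by
      refine ⟨fun i hi => ?_, ?_⟩
      · have hi' : 0 < a i := by simpa using hi
        have h := hmax1 σ i
        have h2 := Real.log_le_log (mul_pos hi' (Real.exp_pos _)) h
        rw [Real.log_exp, Real.log_mul hi'.ne' (Real.exp_pos _).ne', Real.log_exp] at h2
        exact h2
      · obtain ⟨i, hi⟩ := hmax2 σ
        have hi' : 0 < a i := by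
          by_contra hneg
          have h0 : a i = 0 := le_antisymm (not_lt.1 hneg) (ha0 i)
          rw [h0, zero_mul] at hi
          exact absurd hi (not_le.2 (Real.exp_pos _))
        refine ⟨i, by simpa using hi', ?_⟩
        have h := le_antisymm hi (hmax1 σ i)
        have h2 := congrArg Real.log h
        rw [Real.log_exp, Real.log_mul hi'.ne' (Real.exp_pos _).ne', Real.log_exp] at h2
        exact h2) σ₁ σ₂ hgap
    have hlt := hgap.1
    rw [hpq σ₁ le_rfl hlt.le, hpq σ₂ hlt.le le_rfl, hpq ((σ₁ + σ₂) / 2) (by linarith) (by linarith)]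
    ring

end Pool.Agent.Helper12.GO
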