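import Pool.Agent.Helper40.GO.DefsD

/-!
# Project GO (MP_6af536_nt), packet FINB: the limit of the growth of the diagonal.
-/

set_option autoImplicit false

open Filter Topology

noncomputable section

namespace Pool.Agent.Helper12.GO

open Pool.Agent.Helper40.GO

/-- one step on the diagonal -/
theorem diag_step {k : ℕ} {U : (Fin (k + 1) → ℕ) → ℝ} (hpos : ∀ J, 0 < U J) {C : ℝ} {n₀ : ℕ} (hC : 1 ≤ C)
    (hlip : ∀ i J, n₀ ≤ J i →
      U (Function.update J i (J i + 1)) ≤ C * U J ∧ U J ≤ C * U (Function.update J i (J i + 1)))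
    (n : ℕ) (hn : n₀ ≤ n) :
    |Real.log (U fun _ => n + 1) - Real.log (U fun _ => n)| ≤ ((k : ℝ) + 1) * Real.log C := by
  classical
  have hstep : ∀ i J, n₀ ≤ J i → |Real.log (U (Function.update J i (J i + 1))) - Real.log (U J)| ≤ Real.log C := by
    intro i J hJ
    obtain ⟨h1, h2⟩ := hlip i J hJ
    have hC0 : 0 < C := by linarith
    have h3 := Real.log_le_log (hpos _) h1
    have h4 := Real.log_le_log (hpos _) h2
    rw [Real.log_mul hC0.ne' (hpos _).ne'] at h3 h4
    rw [abs_le]
    constructor <;> linarith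
  have key : ∀ s : Finset (Fin (k + 1)),
      |Real.log (U fun i => if i ∈ s then n + 1 else n) - Real.log (U fun _ => n)| ≤ s.card * Real.log C := by
    intro s
    induction s using Finset.induction_on with
    | empty => simp
    | insert a s ha ih =>
      have h1 : (fun i => if i ∈ insert a s then n + 1 else n) =
          Function.update (fun i => if i ∈ s then n + 1 else n) a ((fun i => if i ∈ s then n + 1 else n) a + 1) := by
        funext i
        by_cases hi : i = a
        · subst hi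
          simp [ha]
        · simp [hi]
      have h2 := hstep a (fun i => if i ∈ s then n + 1 else n) (by simpa [ha] using hn)
      rw [← h1] at h2
      rw [Finset.card_insert_of_notMem ha]
      push_cast
      rw [abs_le] at h2 ih ⊢
      constructor <;> linarith [h2.1, h2.2, ih.1, ih.2]
  have h := key Finset.univ
  simpa using h

theorem sums_finite (k : ℕ) (M : Finset ℝ) : (Sums k M).Finite := by
  have h : (Set.range fun l : Fin (k + 1) → M => ∑ i, (l i : ℝ)).Finite := Set.finite_range _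
  refine h.subset ?_
  rintro x ⟨l, hl, rfl⟩
  exact ⟨fun i => ⟨l i, hl i⟩, rfl⟩

/-- PACKET FINB -/
theorem finb (hBLO : S_BLO) (hVIS : S_VIS) (hCVX : S_CVX) : S_FINB := by
  intro k U κ Λ hJ
  classical
  have hpos : ∀ J, 0 < U J := fun J => lt_of_lt_of_le (hJ.κpos 0 J) (hJ.κle 0 J)
  obtain ⟨C, n₀, hC, hlip⟩ := hJ.lip
  set M : Finset ℝ := insert 0 Λ with hM
  set b : ℕ → ℝ := fun n => Real.log (U fun _ => n) with hb
  set L₀ : ℝ := ((k : ℝ) + 1) * Real.log C with hL₀
  have hL₀0 : 0 ≤ L₀ := by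
    have := Real.log_nonneg hC
    positivity
  have hstep : ∀ n, n₀ ≤ n → |b (n + 1) - b n| ≤ L₀ := fun n hn => diag_step hpos hC hlip n hn
  have hfar : ∀ n, n₀ ≤ n → ∀ j : ℕ, |b (n + j) - b n| ≤ L₀ * j := by
    intro n hn j
    induction j with
    | zero => simp
    | succ j ih =>
      have h := hstep (n + j) (by omega)
      rw [← add_assoc]
      push_cast
      rw [abs_le] at h ih ⊢
      constructor <;> nlinarith [h.1, h.2, ih.1, ih.2]
  have hbd : ∀ n : ℕ, n₀ ≤ n → |b n| ≤ |b n₀| + L₀ * n := by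
    intro n hn
    have h := hfar n₀ le_rfl (n - n₀)
    rw [Nat.add_sub_cancel' hn] at h
    have h1 : ((n - n₀ : ℕ) : ℝ) ≤ n := by
      exact_mod_cast Nat.sub_le _ _
    have h2 : |b n| ≤ |b n₀| + |b n - b n₀| := by
      have := abs_add_le (b n₀) (b n - b n₀)
      simpa using this
    nlinarith
  have hbd' : ∀ n : ℕ, max n₀ 1 ≤ n → |b n / n| ≤ |b n₀| + L₀ := by
    intro n hn
    have hn0 : n₀ ≤ n := le_trans (le_max_left _ _) hn
    have hn1 : 1 ≤ n := le_trans (le_max_right _ _) hn
    have hn1' : (1 : ℝ) ≤ n := by exact_mod_cast hn1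
    rw [abs_div, abs_of_nonneg (by positivity : (0 : ℝ) ≤ (n : ℝ)), div_le_iff₀ (by positivity)]
    have := hbd n hn0
    have h0 := abs_nonneg (b n₀)
    nlinarith
  -- the blow-down along an ultrafilter
  have hblow : ∀ 𝒰 : Ultrafilter ℕ, (𝒰 : Filter ℕ) ≤ atTop → ∃ (g : ℝ → ℝ) (A : ℝ), Visc k M g ∧
      (∀ r : ℝ, 0 < r → |g r| ≤ A * r) ∧
      ∀ r : ℝ, 0 < r → Tendsto (fun N : ℕ => b ⌊r * N⌋₊ / N) 𝒰 (𝓝 (g r)) := by
    intro 𝒰 h𝒰
    obtain ⟨F, L, hF, hlim⟩ := hBLO k U κ Λ hJ 𝒰 h𝒰
    refine ⟨fun r => F fun _ => r, L * ((k : ℝ) + 1), hVIS k F M L hF, fun r hr => ?_, fun r hr => ?_⟩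
    · have := hF.bd (fun _ => r) (fun _ => hr)
      simp only [Finset.sum_const, Finset.card_univ, Fintype.card_fin, nsmul_eq_mul] at this
      push_cast at this
      linarith
    · exact hlim (fun _ => r) (fun _ => hr)
  -- convergence
  have hconv : ∃ β : ℝ, Tendsto (fun n : ℕ => b n / n) atTop (𝓝 β) := by
    refine tendsto_of_no_upcrossings (s := (Sums k M)ᶜ)
      ((sums_finite k M).countable.dense_compl ℝ) ?_ ?_ ?_
    · rintro v hv v' _ hvv ⟨hlow, hhigh⟩
      set L₁ : ℝ := L₀ + |v| + 1 with hL₁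
      have hv1 : 0 < v + L₁ := by
        have := neg_abs_le v
        linarith
      have hv1' : 0 < v' + L₁ := by linarith
      set q : ℝ := (v + L₁) / (v' + L₁) with hq
      have hq0 : 0 < q := div_pos hv1 hv1'
      have hq1 : q < 1 := by
        rw [hq, div_lt_one hv1']
        linarith
      set S : Set ℕ := {N | b N < v * N ∧ ∀ n : ℕ, q * N ≤ n → n < N → v * n ≤ b n} with hS
      have hfreq : ∃ᶠ N in atTop, N ∈ S := by
        rw [frequently_atTop]
        intro N₁
        obtain ⟨n', hn', hn'v⟩ := frequently_atTop.1 hhigh (max N₁ (max n₀ 1))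
        have hn1 : 1 ≤ n' := by
          have := le_max_right N₁ (max n₀ 1)
          have := le_max_right n₀ 1
          omega
        have hn0 : n₀ ≤ n' := by
          have := le_max_right N₁ (max n₀ 1)
          have := le_max_left n₀ 1
          omega
        have hN1 : N₁ ≤ n' := by
          have := le_max_left N₁ (max n₀ 1)
          omega
        have hn1' : (0 : ℝ) < n' := by exact_mod_cast hn1
        rw [lt_div_iff₀ hn1'] at hn'v
        have hex : ∃ n, n' < n ∧ b n < v * n := by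
          obtain ⟨n, hn, hnv⟩ := frequently_atTop.1 hlow (n' + 1)
          have h0 : (0 : ℝ) < n := by
            have : 0 < n := by omega
            exact_mod_cast this
          rw [div_lt_iff₀ h0] at hnv
          exact ⟨n, by omega, hnv⟩
        obtain ⟨hN, hNv⟩ := Nat.find_spec hex
        set N := Nat.find hex with hNdef
        refine ⟨N, by omega, hNv, fun n hn hnN => ?_⟩
        have hlt : (n' : ℝ) < q * N := by
          rw [hq, div_mul_eq_mul_div, lt_div_iff₀ hv1']
          have h := hfar n' hn0 (N - n')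
          rw [Nat.add_sub_cancel' hN.le] at h
          rw [Nat.cast_sub hN.le] at h
          have h1 := (abs_le.1 h).1
          have h2 : (n' : ℝ) < N := by exact_mod_cast hN
          have h3 : L₀ ≤ L₁ := by
            have := abs_nonneg v
            linarith
          nlinarith
        have hn'n : n' < n := by
          have : (n' : ℝ) < n := lt_of_lt_of_le hlt hn
          exact_mod_cast this
        by_contra hcon
        exact Nat.find_min hex hnN ⟨hn'n, not_le.1 hcon⟩
      have : (atTop ⊓ 𝓟 S).NeBot := by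
        rw [← frequently_mem_iff_neBot]
        exact hfreq
      let 𝒰 : Ultrafilter ℕ := Ultrafilter.of (atTop ⊓ 𝓟 S)
      have h𝒰 : (𝒰 : Filter ℕ) ≤ atTop ⊓ 𝓟 S := Ultrafilter.of_le _
      have h𝒰1 : (𝒰 : Filter ℕ) ≤ atTop := h𝒰.trans inf_le_left
      have h𝒰S : ∀ᶠ N in (𝒰 : Filter ℕ), N ∈ S := by
        have : (𝒰 : Filter ℕ) ≤ 𝓟 S := h𝒰.trans inf_le_right
        exact this (mem_principal_self S)
      obtain ⟨g, A, hg, hgA, hgl⟩ := hblow 𝒰 h𝒰1
      have hcast : Tendsto (fun N : ℕ => (N : ℝ)) 𝒰 atTop := tendsto_natCast_atTop_atTop.mono_left h𝒰1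
      have hg1lim : Tendsto (fun N : ℕ => b N / N) 𝒰 (𝓝 (g 1)) := by
        have h := hgl 1 one_pos
        simpa using h
      have hg1 : g 1 = v := by
        apply le_antisymm
        · refine le_of_tendsto hg1lim ?_
          filter_upwards [h𝒰S, h𝒰1 (eventually_ge_atTop 1)] with N hN hN1
          have h0 : (0 : ℝ) < N := by
            have : 0 < N := hN1
            exact_mod_cast this
          rw [div_le_iff₀ h0]
          exact hN.1.le
        · have h1 : Tendsto (fun N : ℕ => v - (v + L₀) / (N : ℝ)) 𝒰 (𝓝 (v - 0)) :=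
            tendsto_const_nhds.sub (hcast.const_div_atTop _)
          rw [sub_zero] at h1
          refine le_of_tendsto_of_tendsto h1 hg1lim ?_
          filter_upwards [h𝒰S, h𝒰1 (eventually_ge_atTop (n₀ + 1)),
            hcast.eventually_ge_atTop (1 / (1 - q))] with N hN hN1 hN2
          obtain ⟨n, rfl⟩ : ∃ n, N = n + 1 := ⟨N - 1, by omega⟩
          have h2 : q * ((n + 1 : ℕ) : ℝ) ≤ n := by
            rw [div_le_iff₀ (by linarith)] at hN2
            push_cast at hN2 ⊢
            linarith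
          have h3 := hN.2 n h2 (by omega)
          have h4 := (abs_le.1 (hstep n (by omega))).1
          have h0 : (0 : ℝ) < ((n + 1 : ℕ) : ℝ) := by positivity
          rw [le_div_iff₀ h0]
          have h5 : (v - (v + L₀) / ((n + 1 : ℕ) : ℝ)) * ((n + 1 : ℕ) : ℝ) = v * ((n + 1 : ℕ) : ℝ) - (v + L₀) := by
            field_simp
          rw [h5]
          push_cast
          linarith
      set t : ℝ := (q + 1) / 2 with ht
      have ht0 : 0 < t := by linarith
      have hqt : q < t := by linarith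
      have ht1 : t < 1 := by linarith
      have hgt : v * t ≤ g t := by
        have h1 : Tendsto (fun N : ℕ => (⌊t * (N : ℝ)⌋₊ : ℝ) / (N : ℝ)) 𝒰 (𝓝 t) :=
          (tendsto_nat_floor_mul_div_atTop ht0.le).comp hcast
        refine le_of_tendsto_of_tendsto (h1.const_mul v) (hgl t ht0) ?_
        filter_upwards [h𝒰S, h𝒰1 (eventually_ge_atTop 1),
            hcast.eventually_ge_atTop (1 / (t - q))] with N hN hN1 hN2
        have h0 : (0 : ℝ) < N := by
          have : 0 < N := hN1
          exact_mod_cast this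
        rw [div_le_iff₀ (by linarith)] at hN2
        have h2 := Nat.lt_floor_add_one (t * (N : ℝ))
        have h3 := Nat.floor_le (show 0 ≤ t * (N : ℝ) by positivity)
        have h4 : ⌊t * (N : ℝ)⌋₊ < N := by
          have : (⌊t * (N : ℝ)⌋₊ : ℝ) < N := by nlinarith
          exact_mod_cast this
        have h5 := hN.2 ⌊t * (N : ℝ)⌋₊ (by nlinarith) h4
        show v * ((⌊t * (N : ℝ)⌋₊ : ℝ) / (N : ℝ)) ≤ b ⌊t * (N : ℝ)⌋₊ / (N : ℝ)
        rw [← mul_div_assoc]
        exact div_le_div_of_nonneg_right h5 h0.le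
      have hfin := (hCVX k M g A hg hgA).1 (by rw [hg1]; exact hv) t ht0 ht1
      rw [hg1] at hfin
      linarith
    · refine ⟨|b n₀| + L₀, ?_⟩
      rw [eventually_map]
      filter_upwards [eventually_ge_atTop (max n₀ 1)] with n hn
      exact (abs_le.1 (hbd' n hn)).2
    · refine ⟨-(|b n₀| + L₀), ?_⟩
      rw [eventually_map]
      filter_upwards [eventually_ge_atTop (max n₀ 1)] with n hn
      exact (abs_le.1 (hbd' n hn)).1
  obtain ⟨β, hβ⟩ := hconv
  refine ⟨β, ?_, hβ⟩
  obtain ⟨g, A, hg, hgA, hgl⟩ := hblow (hyperfilter ℕ) (by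
    rw [← Nat.cofinite_eq_atTop]
    exact hyperfilter_le_cofinite)
  have h𝒰1 : (hyperfilter ℕ : Filter ℕ) ≤ atTop := by
    rw [← Nat.cofinite_eq_atTop]
    exact hyperfilter_le_cofinite
  have hcast : Tendsto (fun N : ℕ => (N : ℝ)) (hyperfilter ℕ : Filter ℕ) atTop :=
    tendsto_natCast_atTop_atTop.mono_left h𝒰1
  have hmem := (hCVX k M g A hg hgA).2 β (fun r hr => by
    have h1 : Tendsto (fun N : ℕ => (⌊r * (N : ℝ)⌋₊ : ℝ) / (N : ℝ)) (hyperfilter ℕ : Filter ℕ) (𝓝 r) :=
      (tendsto_nat_floor_mul_div_atTop hr.le).comp hcast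
    have h2 : Tendsto (fun N : ℕ => ⌊r * (N : ℝ)⌋₊) (hyperfilter ℕ : Filter ℕ) atTop :=
      tendsto_nat_floor_atTop.comp (hcast.const_mul_atTop hr)
    have h3 := (hβ.comp h2).mul h1
    have h4 : Tendsto (fun N : ℕ => b ⌊r * N⌋₊ / N) (hyperfilter ℕ : Filter ℕ) (𝓝 (β * r)) := by
      refine h3.congr' ?_
      filter_upwards [h2.eventually_ge_atTop 1] with N hN
      have h5 : (⌊r * (N : ℝ)⌋₊ : ℝ) ≠ 0 := by
        have : 0 < ⌊r * (N : ℝ)⌋₊ := hN
        positivity
      show b ⌊r * (N : ℝ)⌋₊ / (⌊r * (N : ℝ)⌋₊ : ℝ) * ((⌊r * (N : ℝ)⌋₊ : ℝ) / (N : ℝ)) = _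
      field_simp
    exact tendsto_nhds_unique (hgl r hr) h4)
  exact hmem

end Pool.Agent.Helper12.GO
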