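import Pool.Agent.Helper40.GO.GoalsQ

/-!
# Project GO (MP_6af536_nt), packet QNUL: Hilbert's Nullstellensatz with zeros in `ℂ`.
-/

set_option autoImplicit false

open MvPolynomial

namespace Pool.Agent.Helper12.GO

open Pool.Agent.Helper40.GO

/-- PACKET QNUL -/
theorem qnul : S_QNUL := by
  intro K _ _ σ _ S P h
  have h1 : P ∈ vanishingIdeal K (zeroLocus ℂ (Ideal.span S)) := by
    rw [mem_vanishingIdeal_iff]
    intro y hy
    rw [mem_zeroLocus_iff] at hy
    exact h y fun Q hQ => hy Q (Ideal.subset_span hQ)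
  rw [vanishingIdeal_zeroLocus_eq_radical] at h1
  exact h1

end Pool.Agent.Helper12.GO
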